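import Pool.Agent.H76.PZ.Core

/-!
# (E1) mean square of the first mollified function
-/

set_option autoImplicit false

open Complex MeasureTheory Set Filter Topology

namespace Pool.Agent.H76.PZ

open Pool.Agent.H28.MZ
open Pool.Agent.H23.GLH (PrimChar)

lemma sn_nonneg {T t : ℝ} (hT : 0 < T) (h1 : T ≤ t) (h2 : t ≤ 2 * T) : 0 ≤ sn T t := by
  unfold sn
  apply Real.sin_nonneg_of_nonneg_of_le_pi
  · have := Real.pi_pos
    exact div_nonneg (mul_nonneg this.le (by linarith)) hT.le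
  · rw [div_le_iff₀ hT]
    exact mul_le_mul_of_nonneg_left (by linarith) Real.pi_pos.le

lemma sn_cont (T : ℝ) : Continuous (sn T) := by
  unfold sn
  fun_prop

/-- five dyadic intervals -/
lemma ub5 {N : ℕ} {CU : ℝ} (hU : ∀ (T Q : ℝ) (f : ℝ → ℝ), 0 < T → 0 ≤ Q →
    Continuous f → (∀ t, 0 ≤ f t) → IntegrableOn (fun t => W N T t * f t) (Ioi 0) →
    ∫ t in Ioi (0 : ℝ), W N T t * f t ≤ T * Q → ∫ t in T..(2 * T), f t ≤ CU * T * Q)
    {f : ℝ → ℝ} (hf : Continuous f) (h0 : ∀ t, 0 ≤ f t) {T Q : ℝ} (hT : 0 < T) (hQ : 0 ≤ Q)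
    (h : ∀ u : ℝ, T / 4 ≤ u → IntegrableOn (fun t => W N u t * f t) (Ioi 0) ∧
      ∫ t in Ioi (0 : ℝ), W N u t * f t ≤ u * Q) :
    ∫ t in (T / 4)..(8 * T), f t ≤ CU * (31 / 4 * T) * Q := by
  have key : ∀ u : ℝ, T / 4 ≤ u → ∫ t in u..(2 * u), f t ≤ CU * u * Q := fun u hu =>
    hU u Q f (by linarith) hQ hf h0 (h u hu).1 (h u hu).2
  have hi : ∀ a b : ℝ, IntervalIntegrable f volume a b := fun a b => hf.intervalIntegrable a b
  have k1 := key (T / 4) le_rfl
  have k2 := key (T / 2) (by linarith)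
  have k3 := key T (by linarith)
  have k4 := key (2 * T) (by linarith)
  have k5 := key (4 * T) (by linarith)
  have e1 : 2 * (T / 4) = T / 2 := by ring
  have e2 : 2 * (T / 2) = T := by ring
  have e4 : 2 * (2 * T) = 4 * T := by ring
  have e5 : 2 * (4 * T) = 8 * T := by ring
  rw [e1] at k1
  rw [e2] at k2
  rw [e4] at k4
  rw [e5] at k5
  rw [← intervalIntegral.integral_add_adjacent_intervals (hi (T / 4) (T / 2)) (hi (T / 2) (8 * T)),
    ← intervalIntegral.integral_add_adjacent_intervals (hi (T / 2) T) (hi T (8 * T)),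
    ← intervalIntegral.integral_add_adjacent_intervals (hi T (2 * T)) (hi (2 * T) (8 * T)),
    ← intervalIntegral.integral_add_adjacent_intervals (hi (2 * T) (4 * T)) (hi (4 * T) (8 * T))]
  have e6 : CU * (31 / 4 * T) * Q = CU * (T / 4) * Q + (CU * (T / 2) * Q + (CU * T * Q +
    (CU * (2 * T) * Q + CU * (4 * T) * Q))) := by ring
  rw [e6]
  linarith

/-- (E1) -/
theorem e1 (hXA : T_XA) (hMM : T_MM) (hQB : T_QB) (hMX : T_MX) (hUB : T_UB) : T_E1 := by
  intro χ θ hθ hθ2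
  obtain ⟨N₀, C₁, R₁, hC₁, hR₁, hcore⟩ := core hXA hMM hQB χ θ hθ hθ2
  refine ⟨C₁, R₁, hC₁, hR₁, ?_⟩
  intro R ε hR hε
  set κ : ℝ := min ε 1 / 10 with hκ
  have hκ0 : 0 < κ := by rw [hκ]; positivity
  have hκ1 : κ ≤ 1 / 10 := by
    rw [hκ]; have := min_le_right ε 1; linarith
  have hκε : 10 * κ ≤ ε := by
    rw [hκ]; have := min_le_left ε 1; linarith
  obtain ⟨N₁, hN₁⟩ := hMX κ hκ0
  set N : ℕ := max (max N₀ N₁) 1 with hN
  have hNN₀ : N₀ ≤ N := (le_max_left _ _).trans (le_max_left _ _)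
  have hNN₁ : N₁ ≤ N := (le_max_right _ _).trans (le_max_left _ _)
  have hN1 : 1 ≤ N := le_max_right _ _
  obtain ⟨hD, hcore2⟩ := hcore N hNN₀ R hR
  obtain ⟨T₀, hT₀⟩ := hcore2 κ hκ0
  obtain ⟨CU, hCU, hU⟩ := hUB N hN1
  set D : ℝ := C₁ * R * Real.exp (-(2 * θ * R)) with hDdef
  have hR0 : 0 < R := by linarith
  have hD0 : 0 ≤ D := by rw [hDdef]; positivity
  set E : ℝ := Real.exp (2 * R) with hE
  have hE0 : 0 < E := Real.exp_pos _
  refine ⟨E * (1 + κ) * (CU * (31 / 4) * (1 + D + κ)), T₀, ?_⟩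
  intro T hT
  obtain ⟨h4, hη0, hη2, b, hb, hI, hL⟩ := hT₀ T hT
  refine ⟨b, hb, ?_⟩
  set η : ℝ := R / Real.log T with hη
  set Y : ℕ := ⌊T ^ θ⌋₊ with hY
  set f : ℝ → ℝ := fq χ b Y (1 / 2 + η) with hf
  have hfc : Continuous f := fq_cont χ b Y (by linarith)
  have hf0 : ∀ t, 0 ≤ f t := fq_nonneg χ b Y _
  have hT0 : 0 < T := by linarith
  -- the pointwise bound
  set g : ℝ → ℝ := fun t => ‖χ.L ((1 / 2 - η : ℝ) + t * I) *
    Bf χ b Y ((1 / 2 + η : ℝ) + t * I)‖ ^ 2 with hg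
  have hgc : Continuous g := by
    refine Continuous.pow (Continuous.norm ?_) 2
    refine (L_cont χ (by linarith)).mul ?_
    exact (Bf_cont χ b Y).comp (by fun_prop)
  have hgf : ∀ t : ℝ, T / 4 ≤ t → t ≤ 8 * T → g t ≤ E * (1 + κ) * f t := by
    intro t h1 h2
    have h3 := hL t h1 h2
    have h5 : g t = ‖χ.L ((1 / 2 - η : ℝ) + t * I)‖ ^ 2 *
      ‖Bf χ b Y ((1 / 2 + η : ℝ) + t * I)‖ ^ 2 := by
      rw [hg]; simp only [norm_mul, mul_pow]
    have h6 : f t = ‖χ.L ((1 / 2 + η : ℝ) + t * I)‖ ^ 2 *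
      ‖Bf χ b Y ((1 / 2 + η : ℝ) + t * I)‖ ^ 2 := rfl
    rw [h5, h6, ← mul_assoc]
    exact mul_le_mul_of_nonneg_right h3 (by positivity)
  have hQ0 : 0 ≤ 1 + D + κ := by linarith
  constructor
  · have h1 := hN₁ N hNN₁ T (1 + D + κ) f hT0 hQ0 hfc hf0 (fun u hu _ => hI u (by linarith))
    have h2 : ∫ t in T..(2 * T), sn T t * g t ≤ ∫ t in T..(2 * T), E * (1 + κ) * (sn T t * f t) := by
      refine intervalIntegral.integral_mono_on (by linarith)
        (((sn_cont T).mul hgc).intervalIntegrable _ _)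
        ((((sn_cont T).mul hfc).const_mul _).intervalIntegrable _ _) ?_
      intro t ht
      have h3 := hgf t (by linarith [ht.1]) (by linarith [ht.2])
      have h5 := mul_le_mul_of_nonneg_left h3 (sn_nonneg hT0 ht.1 ht.2)
      calc sn T t * g t ≤ sn T t * (E * (1 + κ) * f t) := h5
        _ = _ := by ring
    rw [intervalIntegral.integral_const_mul] at h2
    refine h2.trans ?_
    have h6 : E * (1 + κ) * ∫ t in T..(2 * T), sn T t * f t ≤
        E * (1 + κ) * ((1 + κ) * (1 + D + κ) * (2 * T / Real.pi)) :=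
      mul_le_mul_of_nonneg_left h1 (by positivity)
    refine h6.trans ?_
    have h7 : (1 + κ) * ((1 + κ) * (1 + D + κ)) ≤ 1 + D + ε := by
      have hκD : κ * D ≤ κ * (1 / 2) := mul_le_mul_of_nonneg_left hD hκ0.le
      have hκ2 : κ * κ ≤ κ * (1 / 10) := mul_le_mul_of_nonneg_left hκ1 hκ0.le
      have hκ3 : κ * κ * D ≤ κ * (1 / 10) * (1 / 2) := by
        refine mul_le_mul hκ2 hD hD0 (by positivity)
      have hκ4 : κ * κ * κ ≤ κ * (1 / 10) * (1 / 10) := by
        refine mul_le_mul hκ2 hκ1 hκ0.le (by positivity)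
      nlinarith
    have hpos : 0 ≤ E * (2 * T / Real.pi) := by
      have := Real.pi_pos
      positivity
    calc E * (1 + κ) * ((1 + κ) * (1 + D + κ) * (2 * T / Real.pi))
        = E * (2 * T / Real.pi) * ((1 + κ) * ((1 + κ) * (1 + D + κ))) := by ring
      _ ≤ E * (2 * T / Real.pi) * (1 + D + ε) := mul_le_mul_of_nonneg_left h7 hpos
      _ = 2 * T / Real.pi * (E * (1 + D + ε)) := by ring
  · have h1 := ub5 hU hfc hf0 hT0 hQ0 hI
    have h2 : ∫ t in (T / 2)..(3 * T), g t ≤ ∫ t in (T / 2)..(3 * T), E * (1 + κ) * f t := by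
      refine intervalIntegral.integral_mono_on (by linarith) (hgc.intervalIntegrable _ _)
        ((hfc.const_mul _).intervalIntegrable _ _) ?_
      intro t ht
      exact hgf t (by linarith [ht.1]) (by linarith [ht.2])
    rw [intervalIntegral.integral_const_mul] at h2
    have h3 : ∫ t in (T / 2)..(3 * T), f t ≤ ∫ t in (T / 4)..(8 * T), f t :=
      intervalIntegral.integral_mono_interval (by linarith) (by linarith) (by linarith)
        (Eventually.of_forall hf0) (hfc.intervalIntegrable _ _)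
    refine h2.trans ?_
    calc E * (1 + κ) * ∫ t in (T / 2)..(3 * T), f t
        ≤ E * (1 + κ) * (CU * (31 / 4 * T) * (1 + D + κ)) :=
          mul_le_mul_of_nonneg_left (h3.trans h1) (by positivity)
      _ = _ := by ring

end Pool.Agent.H76.PZ
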