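import Pool.Agent.H76.PZ.E1

/-!
# (E2) mean square of the second mollified function
-/

set_option autoImplicit false

open Complex MeasureTheory Set Filter Topology

namespace Pool.Agent.H76.PZ

open Pool.Agent.H28.MZ
open Pool.Agent.H23.GLH (PrimChar)

/-- (E2) -/
theorem e2 (hXA : T_XA) (hMM : T_MM) (hQB : T_QB) (hUB : T_UB) : T_E2 := by
  intro ψ r θ hr1 hr2 hθ hθ2
  obtain ⟨N₀, C₁, R₁, hC₁, hR₁, hcore⟩ := core hXA hMM hQB ψ θ hθ hθ2
  set N : ℕ := max N₀ 1 with hN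
  have hNN₀ : N₀ ≤ N := le_max_left _ _
  have hN1 : 1 ≤ N := le_max_right _ _
  obtain ⟨CU, hCU, hU⟩ := hUB N hN1
  refine ⟨2 * (CU * (31 / 4) * (5 / 2)), R₁, by positivity, hR₁, ?_⟩
  intro R hR
  have hRR : R₁ ≤ r * R := by nlinarith
  obtain ⟨hD, hcore2⟩ := hcore N hNN₀ (r * R) hRR
  obtain ⟨T₀, hT₀⟩ := hcore2 1 one_pos
  refine ⟨T₀, ?_⟩
  intro T hT
  obtain ⟨h4, hη0, hη2, b, hb, hI, hL⟩ := hT₀ T hT
  refine ⟨b, hb, ?_⟩
  intro τ hτ
  have hτ1 := neg_le_of_abs_le hτ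
  have hτ2 := le_of_abs_le hτ
  have hT0 : 0 < T := by linarith
  set D : ℝ := C₁ * (r * R) * Real.exp (-(2 * θ * (r * R))) with hDdef
  have hD0 : 0 ≤ D := by
    have : 0 < R := by linarith
    rw [hDdef]; positivity
  set η : ℝ := r * R / Real.log T with hη
  have hηe : r * (R / Real.log T) = η := by rw [hη, mul_div_assoc]
  rw [hηe]
  set Y : ℕ := ⌊T ^ θ⌋₊ with hY
  set f : ℝ → ℝ := fq ψ b Y (1 / 2 + η) with hf
  have hfc : Continuous f := fq_cont ψ b Y (by linarith)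
  have hf0 : ∀ t, 0 ≤ f t := fq_nonneg ψ b Y _
  set E : ℝ := Real.exp (2 * (r * R)) with hE
  have hE0 : 0 < E := Real.exp_pos _
  have hEe : Real.exp (2 * r * R) = E := by rw [hE]; ring_nf
  rw [hEe]
  set g : ℝ → ℝ := fun t => ‖ψ.L ((1 / 2 - η : ℝ) + t * I) *
    Bf ψ b Y ((1 / 2 + η : ℝ) + t * I)‖ ^ 2 with hg
  have hgc : Continuous g := by
    refine Continuous.pow (Continuous.norm ?_) 2
    refine (L_cont ψ (by linarith)).mul ?_
    exact (Bf_cont ψ b Y).comp (by fun_prop)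
  have hg0 : ∀ t, 0 ≤ g t := fun t => by simp only [hg]; positivity
  have hgf : ∀ t : ℝ, T / 4 ≤ t → t ≤ 8 * T → g t ≤ E * (1 + 1) * f t := by
    intro t h1 h2
    have h3 := hL t h1 h2
    have h5 : g t = ‖ψ.L ((1 / 2 - η : ℝ) + t * I)‖ ^ 2 *
      ‖Bf ψ b Y ((1 / 2 + η : ℝ) + t * I)‖ ^ 2 := by
      rw [hg]; simp only [norm_mul, mul_pow]
    have h6 : f t = ‖ψ.L ((1 / 2 + η : ℝ) + t * I)‖ ^ 2 *
      ‖Bf ψ b Y ((1 / 2 + η : ℝ) + t * I)‖ ^ 2 := rfl
    rw [h5, h6, ← mul_assoc]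
    exact mul_le_mul_of_nonneg_right h3 (by positivity)
  have hQ0 : 0 ≤ 1 + D + 1 := by linarith
  have h1 := ub5 hU hfc hf0 hT0 hQ0 hI
  have h2 : ∫ t in (T / 4)..(8 * T), g t ≤ ∫ t in (T / 4)..(8 * T), E * (1 + 1) * f t := by
    refine intervalIntegral.integral_mono_on (by linarith) (hgc.intervalIntegrable _ _)
      ((hfc.const_mul _).intervalIntegrable _ _) ?_
    intro t ht
    exact hgf t ht.1 ht.2
  rw [intervalIntegral.integral_const_mul] at h2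
  have hsub : ∫ t in (T / 2)..(3 * T), g (r * t + τ) =
      r⁻¹ * ∫ t in (r * (T / 2) + τ)..(r * (3 * T) + τ), g t := by
    have := intervalIntegral.integral_comp_mul_add (a := T / 2) (b := 3 * T) g
      (by linarith : r ≠ 0) τ
    rw [this, smul_eq_mul]
  change ∫ t in (T / 2)..(3 * T), g (r * t + τ) ≤ _
  rw [hsub]
  have hr0 : (0 : ℝ) < r := by linarith
  have h3 : ∫ t in (r * (T / 2) + τ)..(r * (3 * T) + τ), g t ≤ ∫ t in (T / 4)..(8 * T), g t :=
    intervalIntegral.integral_mono_interval (by nlinarith) (by nlinarith) (by nlinarith)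
      (Eventually.of_forall hg0) (hgc.intervalIntegrable _ _)
  have h30 : 0 ≤ ∫ t in (r * (T / 2) + τ)..(r * (3 * T) + τ), g t :=
    intervalIntegral.integral_nonneg (by nlinarith) (fun t _ => hg0 t)
  have hrinv : r⁻¹ ≤ 1 := inv_le_one_of_one_le₀ hr1.le
  calc r⁻¹ * ∫ t in (r * (T / 2) + τ)..(r * (3 * T) + τ), g t
      ≤ 1 * ∫ t in (r * (T / 2) + τ)..(r * (3 * T) + τ), g t :=
        mul_le_mul_of_nonneg_right hrinv h30
    _ ≤ E * (1 + 1) * ∫ t in (T / 4)..(8 * T), f t := by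
        rw [one_mul]; exact h3.trans h2
    _ ≤ E * (1 + 1) * (CU * (31 / 4 * T) * (1 + D + 1)) :=
        mul_le_mul_of_nonneg_left h1 (by positivity)
    _ ≤ E * (1 + 1) * (CU * (31 / 4 * T) * (5 / 2)) := by
        refine mul_le_mul_of_nonneg_left ?_ (by positivity)
        exact mul_le_mul_of_nonneg_left (by linarith) (by positivity)
    _ = _ := by ring

end Pool.Agent.H76.PZ
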