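import Pool.Agent.H28.MZ.Targets

/-!
# Mean squares of the mollified functions: common part of (E1) and (E2)
-/

set_option autoImplicit false

open Complex MeasureTheory Set Filter Topology

namespace Pool.Agent.H76.PZ

open Pool.Agent.H28.MZ
open Pool.Agent.H23.GLH (PrimChar)

lemma L_diffAt (π : PrimChar) {s : ℂ} (hs : s ≠ 1) : DifferentiableAt ℂ π.L s := by
  have := π.q_ne
  exact DirichletCharacter.differentiableAt_LFunction π.χ s (Or.inl hs)

lemma L_cont (π : PrimChar) {σ : ℝ} (hσ : σ < 1) : Continuous fun t : ℝ => π.L (σ + t * I) := by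
  rw [continuous_iff_continuousAt]
  intro t
  have h1 : ContinuousAt π.L ((σ : ℂ) + t * I) := by
    refine (L_diffAt π ?_).continuousAt
    intro h
    have := congrArg Complex.re h
    simp at this
    linarith
  have h2 : ContinuousAt (fun t : ℝ => (σ : ℂ) + t * I) t := by fun_prop
  exact ContinuousAt.comp (f := fun t : ℝ => (σ : ℂ) + t * I) h1 h2

lemma Bf_cont (π : PrimChar) (b : ℕ → ℝ) (Y : ℕ) : Continuous (Bf π b Y) := by
  unfold Bf
  refine continuous_finsetSum _ fun h hh => ?_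
  have h1 : (h : ℂ) ≠ 0 := by
    have := (Finset.mem_Icc.1 hh).1
    exact_mod_cast (by omega : h ≠ 0)
  refine continuous_const.mul ?_
  exact (continuous_neg (G := ℂ)).const_cpow (Or.inl h1)

/-- the mollified square -/
noncomputable def fq (π : PrimChar) (b : ℕ → ℝ) (Y : ℕ) (σ : ℝ) (t : ℝ) : ℝ :=
  ‖π.L (σ + t * I)‖ ^ 2 * ‖Bf π b Y (σ + t * I)‖ ^ 2

lemma fq_cont (π : PrimChar) (b : ℕ → ℝ) (Y : ℕ) {σ : ℝ} (hσ : σ < 1) :
    Continuous (fq π b Y σ) := by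
  unfold fq
  refine ((L_cont π hσ).norm.pow 2).mul ((Continuous.norm ?_).pow 2)
  exact (Bf_cont π b Y).comp (by fun_prop)

lemma fq_nonneg (π : PrimChar) (b : ℕ → ℝ) (Y : ℕ) (σ t : ℝ) : 0 ≤ fq π b Y σ t := by
  unfold fq; positivity

/-- the parameter of the sieve -/
lemma sieve_par {C θ R : ℝ} (hC : 1 ≤ C) (hθ : 0 < θ) (hR : 4 * C / θ ≤ R) :
    4 * θ * C * R * Real.exp (-(2 * θ * R)) ≤ 1 / 2 ∧ 8 ≤ 2 * θ * R := by
  have h1 : 4 * C ≤ θ * R := by
    rw [div_le_iff₀ hθ] at hR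
    linarith
  set x := 2 * θ * R with hx
  have hx8 : 8 * C ≤ x := by rw [hx]; linarith
  have hx0 : 0 ≤ x := by linarith
  refine ⟨?_, by linarith⟩
  have h2 := Real.quadratic_le_exp_of_nonneg hx0
  have h3 : 4 * C * x ≤ Real.exp x := by nlinarith
  have h4 : 4 * θ * C * R = 2 * C * x := by rw [hx]; ring
  rw [h4, Real.exp_neg, ← div_eq_mul_inv, div_le_iff₀ (Real.exp_pos x)]
  linarith

/-- the size of `⌊T ^ θ⌋₊` -/
lemma floor_par {T θ : ℝ} (hT : 1 ≤ T) (h2 : 2 ≤ T ^ θ) :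
    2 ≤ ⌊T ^ θ⌋₊ ∧ ((⌊T ^ θ⌋₊ : ℕ) : ℝ) ≤ T ^ θ ∧
      Real.log (⌊T ^ θ⌋₊ : ℕ) ≤ θ * Real.log T ∧
      θ * Real.log T - Real.log 2 ≤ Real.log (⌊T ^ θ⌋₊ : ℕ) := by
  have hT0 : 0 < T := by linarith
  have hx0 : 0 ≤ T ^ θ := by linarith
  have h1 : 2 ≤ ⌊T ^ θ⌋₊ := Nat.le_floor (by exact_mod_cast h2)
  have h3 : ((⌊T ^ θ⌋₊ : ℕ) : ℝ) ≤ T ^ θ := Nat.floor_le hx0
  have h1' : (2 : ℝ) ≤ (⌊T ^ θ⌋₊ : ℕ) := by exact_mod_cast h1
  refine ⟨h1, h3, ?_, ?_⟩
  · rw [← Real.log_rpow hT0]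
    exact Real.log_le_log (by linarith) h3
  · rw [← Real.log_rpow hT0, ← Real.log_div (by linarith) (by norm_num)]
    refine Real.log_le_log (by linarith) ?_
    have h4 := Nat.sub_one_lt_floor (T ^ θ)
    linarith

lemma tendsto_div_log (R : ℝ) : Tendsto (fun T : ℝ => R / Real.log T) atTop (𝓝 0) :=
  tendsto_const_nhds.div_atTop Real.tendsto_log_atTop

/-- the factor of the functional equation near `T` -/
lemma factor_lim (q C R : ℝ) (hq : 1 ≤ q) :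
    Tendsto (fun T : ℝ => (1 + C / (T / 4)) * (2 * q * T) ^ (2 * (R / Real.log T))) atTop
      (𝓝 (Real.exp (2 * R))) := by
  have h1 : Tendsto (fun T : ℝ => 1 + C / (T / 4)) atTop (𝓝 (1 + 0)) := by
    refine tendsto_const_nhds.add ?_
    refine tendsto_const_nhds.div_atTop ?_
    exact tendsto_id.atTop_div_const (by norm_num)
  have h2 : Tendsto (fun T : ℝ => Real.exp (2 * R + Real.log (2 * q) * (2 * (R / Real.log T))))
      atTop (𝓝 (Real.exp (2 * R + Real.log (2 * q) * (2 * 0)))) := by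
    refine (Real.continuous_exp.tendsto _).comp ?_
    exact tendsto_const_nhds.add ((tendsto_div_log R).const_mul 2 |>.const_mul _)
  have h3 := h1.mul h2
  rw [mul_zero, mul_zero, add_zero, add_zero, one_mul] at h3
  refine h3.congr' ?_
  filter_upwards [eventually_gt_atTop (1 : ℝ)] with T hT
  have hl : 0 < Real.log T := Real.log_pos hT
  congr 1
  have hl2 : Real.log (2 * q * T) = Real.log (2 * q) + Real.log T :=
    Real.log_mul (by positivity) (by positivity)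
  rw [Real.rpow_def_of_pos (by positivity), hl2]
  congr 1
  have h5 : Real.log T * (R / Real.log T) = R := by field_simp
  linear_combination -2 * h5

/-- common part of (E1) and (E2) -/
theorem core (hXA : T_XA) (hMM : T_MM) (hQB : T_QB) (χ : PrimChar) (θ : ℝ) (hθ : 0 < θ)
    (hθ2 : θ < 1 / 2) : ∃ (N₀ : ℕ) (C₁ R₁ : ℝ), 0 < C₁ ∧ 1 ≤ R₁ ∧ ∀ N : ℕ, N₀ ≤ N → ∀ R : ℝ,
      R₁ ≤ R → C₁ * R * Real.exp (-(2 * θ * R)) ≤ 1 / 2 ∧ ∀ ε : ℝ, 0 < ε → ∃ T₀ : ℝ, ∀ T : ℝ,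
        T₀ ≤ T → 4 ≤ T ∧ 0 < R / Real.log T ∧ R / Real.log T < 1 / 2 ∧ ∃ b : ℕ → ℝ, Mol χ.q b ∧
          (∀ u : ℝ, T / 4 ≤ u → IntegrableOn (fun t : ℝ =>
            W N u t * fq χ b ⌊T ^ θ⌋₊ (1 / 2 + R / Real.log T) t) (Ioi 0) ∧
            (∫ t in Ioi (0 : ℝ), W N u t * fq χ b ⌊T ^ θ⌋₊ (1 / 2 + R / Real.log T) t) ≤
              u * (1 + C₁ * R * Real.exp (-(2 * θ * R)) + ε)) ∧
          ∀ t : ℝ, T / 4 ≤ t → t ≤ 8 * T →
            ‖χ.L ((1 / 2 - R / Real.log T : ℝ) + t * I)‖ ^ 2 ≤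
              Real.exp (2 * R) * (1 + ε) * ‖χ.L ((1 / 2 + R / Real.log T : ℝ) + t * I)‖ ^ 2 := by
  have := χ.q_ne
  have hq1 : 1 ≤ χ.q := Nat.one_le_iff_ne_zero.2 (NeZero.ne _)
  have hq1' : (1 : ℝ) ≤ χ.q := by exact_mod_cast hq1
  obtain ⟨CQ, hCQ, hQ⟩ := hQB χ.q hq1
  obtain ⟨CX, hCX, hX⟩ := hXA χ
  set δ₁ : ℝ := (1 / 2 - θ) / 2 with hδ₁
  have hδ0 : 0 < δ₁ := by rw [hδ₁]; linarith
  have hδ2 : δ₁ < 1 / 2 := by rw [hδ₁]; linarith
  obtain ⟨N₀, hN₀⟩ := hMM χ δ₁ hδ0 hδ2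
  have hR1 : 1 ≤ 4 * CQ / θ := by
    rw [le_div_iff₀ hθ]; linarith
  refine ⟨N₀, 4 * θ * CQ, 4 * CQ / θ, by positivity, hR1, ?_⟩
  intro N hN R hR
  obtain ⟨hD, hR8⟩ := sieve_par hCQ hθ hR
  have hR0 : 1 ≤ R := hR1.trans hR
  refine ⟨hD, ?_⟩
  intro ε hε
  obtain ⟨C, δ, σ₁, hC, hδ, hσ₁, hM⟩ := hN₀ N hN
  have hx : Tendsto (fun T : ℝ => T ^ θ) atTop atTop := tendsto_rpow_atTop hθ
  have hx2 : Tendsto (fun T : ℝ => T ^ δ₁) atTop atTop := tendsto_rpow_atTop hδ0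
  have hx3 : Tendsto (fun T : ℝ => C * (T / 4) ^ (-δ)) atTop (𝓝 (C * 0)) := by
    refine Tendsto.const_mul C ?_
    exact (tendsto_rpow_neg_atTop hδ).comp (tendsto_id.atTop_div_const (by norm_num))
  rw [mul_zero] at hx3
  have hfac := factor_lim χ.q CX R hq1'
  have hlt : Real.exp (2 * R) < Real.exp (2 * R) * (1 + ε) := by
    have := Real.exp_pos (2 * R)
    nlinarith
  have hev : ∀ᶠ T : ℝ in atTop, 4 ≤ T ∧ R / Real.log T < 1 / 2 ∧ R / Real.log T < σ₁ - 1 / 2 ∧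
      2 ≤ T ^ θ ∧ 4 ≤ T ^ δ₁ ∧ C * (T / 4) ^ (-δ) < ε ∧
      (1 + CX / (T / 4)) * (2 * χ.q * T) ^ (2 * (R / Real.log T)) < Real.exp (2 * R) * (1 + ε) := by
    filter_upwards [eventually_ge_atTop (4 : ℝ), (tendsto_div_log R).eventually_lt_const
      (by norm_num : (0 : ℝ) < 1 / 2), (tendsto_div_log R).eventually_lt_const
      (by linarith : (0 : ℝ) < σ₁ - 1 / 2), hx.eventually_ge_atTop 2, hx2.eventually_ge_atTop 4,
      hx3.eventually_lt_const hε, hfac.eventually_lt_const hlt] with T h1 h2 h3 h4 h5 h6 h7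
    exact ⟨h1, h2, h3, h4, h5, h6, h7⟩
  obtain ⟨T₀, hT₀⟩ := eventually_atTop.1 hev
  refine ⟨T₀, ?_⟩
  intro T hT
  obtain ⟨h4, hη2, hησ, hTθ, hTδ, hsm, hfc⟩ := hT₀ T hT
  have hT1 : 1 < T := by linarith
  have hlog : 0 < Real.log T := Real.log_pos hT1
  set η : ℝ := R / Real.log T with hη
  have hη0 : 0 < η := div_pos (by linarith) hlog
  refine ⟨h4, hη0, hη2, ?_⟩
  obtain ⟨hY2, hYT, hYl, hYu⟩ := floor_par hT1.le hTθ
  set Y : ℕ := ⌊T ^ θ⌋₊ with hY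
  have hlog2 : Real.log 2 ≤ 1 := by
    have := Real.log_two_lt_d9; linarith
  have hlog20 : 0 ≤ Real.log 2 := Real.log_nonneg (by norm_num)
  have hηT : η * Real.log T = R := by
    rw [hη]; field_simp
  -- the sieve parameter
  set v : ℝ := (1 + 2 * η - 1) * Real.log Y with hv
  have hv1 : v ≤ 2 * θ * R := by
    have : v = 2 * η * Real.log Y := by rw [hv]; ring
    rw [this]
    have h5 : η * Real.log Y ≤ η * (θ * Real.log T) := mul_le_mul_of_nonneg_left hYl hη0.le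
    nlinarith
  have hv2 : 2 * θ * R - Real.log 2 ≤ v := by
    have : v = 2 * η * Real.log Y := by rw [hv]; ring
    rw [this]
    have h5 : η * (θ * Real.log T - Real.log 2) ≤ η * Real.log Y :=
      mul_le_mul_of_nonneg_left hYu hη0.le
    nlinarith
  have hv3 : 1 ≤ v := by linarith
  have hv4 : CQ * v * Real.exp (-v) ≤ 4 * θ * CQ * R * Real.exp (-(2 * θ * R)) := by
    have h5 : Real.exp (-v) ≤ 2 * Real.exp (-(2 * θ * R)) := by
      have : Real.exp (-v) ≤ Real.exp (Real.log 2 + -(2 * θ * R)) := Real.exp_le_exp.2 (by linarith)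
      rwa [Real.exp_add, Real.exp_log (by norm_num)] at this
    calc CQ * v * Real.exp (-v) ≤ CQ * (2 * θ * R) * (2 * Real.exp (-(2 * θ * R))) := by
          refine mul_le_mul (mul_le_mul_of_nonneg_left hv1 (by linarith)) h5
            (Real.exp_pos _).le (by positivity)
      _ = _ := by ring
  obtain ⟨b, hb, hbQ⟩ := hQ (1 + 2 * η) Y (by linarith) (by linarith) hY2 hv3 (hv4.trans hD)
  refine ⟨b, hb, ?_, ?_⟩
  · intro u hu
    have hu1 : 1 ≤ u := by linarith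
    have hYu' : (Y : ℝ) ≤ u ^ (1 / 2 - δ₁) := by
      have e1 : 1 / 2 - δ₁ = θ + δ₁ := by rw [hδ₁]; ring
      have hθδ : 0 < θ + δ₁ := by linarith
      have h5 : (T / 4) ^ (θ + δ₁) ≤ u ^ (θ + δ₁) :=
        Real.rpow_le_rpow (by linarith) hu hθδ.le
      have h6 : T ^ θ ≤ (T / 4) ^ (θ + δ₁) := by
        rw [Real.div_rpow (by linarith) (by norm_num : (0 : ℝ) ≤ 4), le_div_iff₀ (by positivity),
          Real.rpow_add (by linarith : (0 : ℝ) < T)]
        refine mul_le_mul_of_nonneg_left ?_ (by positivity)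
        have h7 : (4 : ℝ) ^ (θ + δ₁) ≤ (4 : ℝ) ^ (1 : ℝ) :=
          Real.rpow_le_rpow_of_exponent_le (by norm_num : (1 : ℝ) ≤ 4) (by linarith)
        rw [Real.rpow_one] at h7
        linarith
      rw [e1]
      linarith
    obtain ⟨g1, g2⟩ := hM (1 / 2 + η) u b Y (by linarith) (by linarith) hu1 hb hYu'
    have e2 : 2 * (1 / 2 + η) = 1 + 2 * η := by ring
    rw [e2] at g2
    have g1' : IntegrableOn (fun t : ℝ => W N u t * fq χ b Y (1 / 2 + η) t) (Ioi 0) := g1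
    have g2' : (∫ t in Ioi (0 : ℝ), W N u t * fq χ b Y (1 / 2 + η) t) ≤
        u * (zq χ.q (1 + 2 * η) * Qf b Y (1 + 2 * η) + C * u ^ (-δ)) := g2
    refine ⟨g1', g2'.trans ?_⟩
    refine mul_le_mul_of_nonneg_left ?_ (by linarith)
    have h8 : C * u ^ (-δ) ≤ C * (T / 4) ^ (-δ) := by
      refine mul_le_mul_of_nonneg_left ?_ hC.le
      exact Real.rpow_le_rpow_of_nonpos (by linarith) hu (by linarith)
    have h9 : CQ * ((1 + 2 * η - 1) * Real.log Y) * Real.exp (-((1 + 2 * η - 1) * Real.log Y)) =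
      CQ * v * Real.exp (-v) := by rw [hv]
    linarith
  · intro t ht1 ht2
    have ht0 : 1 ≤ t := by linarith
    have h5 := hX t η ht0 hη0.le hη2.le
    have h6 := (abs_sub_le_iff.1 h5).1
    set F : ℝ := (χ.q * t / (2 * Real.pi)) ^ (2 * η) with hF
    set G : ℝ := ‖χ.L ((1 / 2 + η : ℝ) + t * I)‖ ^ 2 with hG
    have hG0 : 0 ≤ G := by rw [hG]; positivity
    have hF0 : 0 ≤ F := by rw [hF]; positivity
    have h7 : F ≤ (2 * χ.q * T) ^ (2 * η) := by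
      rw [hF]
      refine Real.rpow_le_rpow (by positivity) ?_ (by linarith)
      rw [div_le_iff₀ (by positivity)]
      have h31 := Real.pi_gt_three
      have h30 : (χ.q : ℝ) * t ≤ χ.q * (8 * T) := mul_le_mul_of_nonneg_left ht2 (by linarith)
      have h32 : (0 : ℝ) ≤ χ.q * T := by positivity
      nlinarith
    have h8 : 1 + CX / t ≤ 1 + CX / (T / 4) := by
      have : CX / t ≤ CX / (T / 4) :=
        div_le_div_of_nonneg_left hCX.le (by linarith : (0 : ℝ) < T / 4) ht1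
      linarith
    have h9 : (1 + CX / t) * F ≤ Real.exp (2 * R) * (1 + ε) := by
      refine le_trans ?_ hfc.le
      refine mul_le_mul h8 h7 hF0 ?_
      have : 0 ≤ CX / (T / 4) := by positivity
      linarith
    calc ‖χ.L ((1 / 2 - η : ℝ) + t * I)‖ ^ 2 ≤ (1 + CX / t) * F * G := by
          linarith
      _ ≤ _ := mul_le_mul_of_nonneg_right h9 hG0

end Pool.Agent.H76.PZ
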